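import Mathlib
import Pool.Agent.H695R3.PP.Stmts

set_option autoImplicit false

/-! Project H695-LP, TaskSA: spectral averaging (helper400). -/

open scoped BigOperators ENNReal
open MeasureTheory

namespace Pool.Agent.H400R3.PPSA

open Pool.Agent.H695R3.PP

theorem symm_sum {a b : ℤ} {f g : ℤ → ℝ} (hf : ∀ n, n < a ∨ b < n → f n = 0)
    (hg : ∀ n, n < a ∨ b < n → g n = 0) :
    ∑ n ∈ Finset.Icc a b, f (n + 1) * g n = ∑ n ∈ Finset.Icc a b, f n * g (n - 1) := by
  have h1 : ∑ n ∈ Finset.Icc a b, f (n + 1) * g n =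
      ∑ n ∈ Finset.Icc (a - 1) (b + 1), f (n + 1) * g n := by
    apply Finset.sum_subset (Finset.Icc_subset_Icc (by omega) (by omega))
    intro n hn hn'
    rw [Finset.mem_Icc] at hn hn'
    rw [hg n (by omega), mul_zero]
  have h2 : ∑ n ∈ Finset.Icc a b, f n * g (n - 1) =
      ∑ n ∈ Finset.Icc a (b + 2), f n * g (n - 1) := by
    apply Finset.sum_subset (Finset.Icc_subset_Icc (by omega) (by omega))
    intro n hn hn'
    rw [Finset.mem_Icc] at hn hn'
    rw [hf n (by omega), zero_mul]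
  rw [h1, h2]
  refine Finset.sum_nbij' (fun n => n + 1) (fun n => n - 1) ?_ ?_ ?_ ?_ ?_
  · intro n hn
    rw [Finset.mem_Icc] at hn ⊢
    omega
  · intro n hn
    rw [Finset.mem_Icc] at hn ⊢
    omega
  · intro n _; simp
  · intro n _; simp
  · intro n _; simp

theorem key {V : ℤ → ℝ} {a b m : ℤ} {κ t t' E E' : ℝ} {ψ ψ' : ℤ → ℝ} (hκ : 0 < κ)
    (h : IsEig (Function.update V m t) a b E ψ) (hm : κ ≤ ψ m ^ 2)
    (h' : IsEig (Function.update V m t') a b E' ψ') (hm' : κ ≤ ψ' m ^ 2) :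
    κ * |t - t'| ≤ |E - E'| := by
  obtain ⟨h0, h1, h2⟩ := h
  obtain ⟨h0', h1', h2'⟩ := h'
  have hmem : m ∈ Finset.Icc a b := by
    by_contra hc
    rw [Finset.mem_Icc] at hc
    have : ψ m = 0 := h0 m (by omega)
    rw [this] at hm
    norm_num at hm
    linarith
  have hs1 := symm_sum h0 h0'
  have hs2 := symm_sum h0' h0
  have e1 : ∑ n ∈ Finset.Icc a b, (E - Function.update V m t n) * (ψ n * ψ' n) =
      ∑ n ∈ Finset.Icc a b, (ψ (n + 1) * ψ' n + ψ (n - 1) * ψ' n) := by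
    refine Finset.sum_congr rfl fun n hn => ?_
    rw [Finset.mem_Icc] at hn
    have := h2 n hn.1 hn.2
    linear_combination (-ψ' n) * this
  have e2 : ∑ n ∈ Finset.Icc a b, (E' - Function.update V m t' n) * (ψ n * ψ' n) =
      ∑ n ∈ Finset.Icc a b, (ψ n * ψ' (n - 1) + ψ' (n + 1) * ψ n) := by
    refine Finset.sum_congr rfl fun n hn => ?_
    rw [Finset.mem_Icc] at hn
    have := h2' n hn.1 hn.2
    linear_combination (-ψ n) * this
  rw [Finset.sum_add_distrib] at e1 e2
  have hs2' : ∑ n ∈ Finset.Icc a b, ψ (n - 1) * ψ' n = ∑ n ∈ Finset.Icc a b, ψ' n * ψ (n - 1) :=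
    Finset.sum_congr rfl fun n _ => mul_comm _ _
  have e3 : ∑ n ∈ Finset.Icc a b, (E - Function.update V m t n) * (ψ n * ψ' n) =
      ∑ n ∈ Finset.Icc a b, (E' - Function.update V m t' n) * (ψ n * ψ' n) := by
    rw [e1, e2, hs1, hs2', hs2]
  have e4 : (E - E') * ∑ n ∈ Finset.Icc a b, ψ n * ψ' n = (t - t') * (ψ m * ψ' m) := by
    have e5 : ∑ n ∈ Finset.Icc a b, ((E - Function.update V m t n) * (ψ n * ψ' n) -
        (E' - Function.update V m t' n) * (ψ n * ψ' n)) = 0 := by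
      rw [Finset.sum_sub_distrib, e3, sub_self]
    have e6 : ∀ n, (E - Function.update V m t n) * (ψ n * ψ' n) -
        (E' - Function.update V m t' n) * (ψ n * ψ' n) = (E - E') * (ψ n * ψ' n) -
          (if n = m then (t - t') * (ψ m * ψ' m) else 0) := by
      intro n
      by_cases hn : n = m
      · subst hn; simp; ring
      · simp [Function.update_of_ne hn, hn]; ring
    rw [Finset.sum_congr rfl fun n _ => e6 n, Finset.sum_sub_distrib, ← Finset.mul_sum,
      Finset.sum_ite_eq' (Finset.Icc a b) m, if_pos hmem] at e5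
    linarith
  have hCS : |∑ n ∈ Finset.Icc a b, ψ n * ψ' n| ≤ 1 := by
    have hcs := Finset.sum_mul_sq_le_sq_mul_sq (Finset.Icc a b) ψ ψ'
    unfold nsq at h1 h1'
    rw [h1, h1', mul_one] at hcs
    exact (sq_le_one_iff_abs_le_one _).mp hcs
  have hψ : κ ≤ |ψ m * ψ' m| := by
    have : κ ^ 2 ≤ |ψ m * ψ' m| ^ 2 := by
      rw [sq_abs, mul_pow, pow_two κ]
      exact mul_le_mul hm hm' hκ.le (sq_nonneg _)
    exact le_of_sq_le_sq this (abs_nonneg _)
  calc κ * |t - t'| ≤ |ψ m * ψ' m| * |t - t'| := mul_le_mul_of_nonneg_right hψ (abs_nonneg _)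
    _ = |(E - E') * ∑ n ∈ Finset.Icc a b, ψ n * ψ' n| := by rw [e4, abs_mul (t - t'), mul_comm]
    _ ≤ |E - E'| := by
      rw [abs_mul]
      exact mul_le_of_le_one_right (abs_nonneg _) hCS

theorem taskSA : TaskSA := by
  intro V a b m A κ hκ
  classical
  set S : Set ℝ := {t : ℝ | ∃ E ∈ A, ∃ ψ, IsEig (Function.update V m t) a b E ψ ∧ κ ≤ ψ m ^ 2}
    with hS
  choose! e heA ψ hψ using fun (t : ℝ) (ht : t ∈ S) => ht
  have hkey : ∀ t ∈ S, ∀ t' ∈ S, κ * |t - t'| ≤ |e t - e t'| := fun t ht t' ht' =>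
    key hκ (hψ t ht).1 (hψ t ht).2 (hψ t' ht').1 (hψ t' ht').2
  have hinj : Set.InjOn e S := by
    intro t ht t' ht' h
    have := hkey t ht t' ht'
    rw [h, sub_self, abs_zero] at this
    have h2 : |t - t'| ≤ 0 := by
      by_contra hc
      push Not at hc
      have := mul_pos hκ hc
      linarith
    have := abs_nonneg (t - t')
    have h3 : t - t' = 0 := abs_eq_zero.mp (le_antisymm h2 this)
    linarith
  set g : ℝ → ℝ := Function.invFunOn e S with hg
  have hge : ∀ t ∈ S, g (e t) = t := fun t ht => hinj.leftInvOn_invFunOn ht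
  have hLip : LipschitzOnWith (Real.toNNReal (1 / κ)) g (e '' S) := by
    apply LipschitzOnWith.of_dist_le_mul
    rintro _ ⟨t, ht, rfl⟩ _ ⟨t', ht', rfl⟩
    rw [hge t ht, hge t' ht', Real.dist_eq, Real.dist_eq, Real.coe_toNNReal _ (by positivity)]
    have := hkey t ht t' ht'
    rw [div_mul_eq_mul_div, one_mul, le_div_iff₀ hκ]
    linarith
  have himg : S = g '' (e '' S) := by
    rw [Set.image_image]
    exact (Set.EqOn.image_eq (f₂ := id) fun t ht => hge t ht).symm ▸ (Set.image_id S).symm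
  have hle := hLip.hausdorffMeasure_image_le (d := 1) zero_le_one
  rw [← himg, hausdorffMeasure_real, ENNReal.rpow_one] at hle
  refine hle.trans ?_
  have hsub : e '' S ⊆ A := by
    rintro _ ⟨t, ht, rfl⟩
    exact heA t ht
  exact mul_le_mul' le_rfl (measure_mono hsub)

end Pool.Agent.H400R3.PPSA
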